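import Mathlib
import Pool.Agent.Q254.D208ff
import Pool.Agent.Q254.D208ffDef

/-!
# A gonality-tight graph whose genus is not the expected binomial coefficient

There is a connected multigraph on 8 vertices with first gonality 5, second gonality 6 and genus 8,
whereas `5 choose 2 = 10`.
-/

namespace Pool.Agent.Results.MP_d208ff_co.GenusNotBinomial

open Pool.Agent.Q254.Chip Pool.Agent.Q254.D208ff

theorem result :
    (∃ G : MGraph (Fin 8), G.Connected ∧ G.gon 1 = 5 ∧ G.gon 2 = 6 ∧ G.genus = 8) ∧
      ¬ GenusStatement := by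
  refine ⟨⟨G, connected, gon1, gon2, genus_eq⟩, fun h => ?_⟩
  have h1 := h 8 G connected (by rw [GonalityTight, gon1, gon2])
  rw [genus_eq, gon1] at h1
  have h2 : Nat.choose 5 2 = 10 := by decide
  rw [h2] at h1
  norm_num at h1

end Pool.Agent.Results.MP_d208ff_co.GenusNotBinomial
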