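import Mathlib
import Pool.Agent.Q254.D208ff
import Pool.Agent.Q254.D208ffDef

/-!
# A gonality-tight graph whose gonality sequence differs from the conjectured formula

There is a connected multigraph on 8 vertices with first gonality 5, second gonality 6 and third
gonality at most 8, whereas the formula predicts third gonality 10.
-/

namespace Pool.Agent.Results.MP_d208ff_co.SequenceNotFormula

open Pool.Agent.Q254.Chip Pool.Agent.Q254.D208ff

theorem result :
    (∃ G : MGraph (Fin 8), G.Connected ∧ G.gon 1 = 5 ∧ G.gon 2 = 6 ∧ G.gon 3 ≤ 8) ∧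
      ¬ SequenceStatement := by
  refine ⟨⟨G, connected, gon1, gon2, gon3⟩, fun h => ?_⟩
  have h1 := (h 8 G connected (by rw [GonalityTight, gon1, gon2])).2 3 2 2 (by norm_num)
    (by rw [gon1]; decide) (by norm_num) (by rw [gon1]; norm_num) le_rfl (by norm_num)
  rw [gon1] at h1
  have h2 := gon3
  omega

end Pool.Agent.Results.MP_d208ff_co.SequenceNotFormula
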